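import Mathlib
import Pool.Agent.Run7.h373.QE.Quad

/-!
# The Hardy-Littlewood formula for quadratic polynomials in almost all windows of length `T log X`

Let `f(n) = a n² + b n + c`. Let `A ≥ 0` and `ε > 0`. There is a constant `T` such that for EVERY pair `(a, b)` with
`1 ≤ a ≤ A`, `|b| ≤ A √X`, and for almost all pairs `(c, m)`, `|c| ≤ X`, `m` in ANY interval `[m₀, m₀ + M)` below `A √X`
with at least `X^(1/3) (log X)^B` integers, the number of the primes `f(n)` and the number of the primes `-f(n)` with `n`
in the window `(m, m + H]` are given by the formula of Hardy and Littlewood, with the full constant, as soon as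
`H ≥ T log X`; the error is at most `ε` times the main term of a whole window of values of one sign. In windows of this
length the formula predicts a bounded number of primes, so the order of the length is the best possible.

Proof. The second moment over `c` and `m` of the sum over the window of the difference between the primes and their
sieve model is opened: the diagonal terms are bounded by the number of primes; the off-diagonal ones are the values at
`f(x + i) - f(x + j)`, which is linear in `x`, of the autocorrelation of that difference; the sum of these over an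
interval of length `M` is bounded by a second moment over the circle, in which only arcs of width `(log X)^B / M` at
rational numbers with a small denominator matter, where the primes minus their model, twisted by `e(a n / q)`, are small
in almost all intervals of length `M / (log X)^B ≥ X^(1/3)` (Gallagher's lemma, Heath-Brown's identity, mean values of
Dirichlet polynomials twisted by characters, a zero-free region). The difference between the sieve models with the levels
`(log X)^E` and `(log X)^(1/u)` is treated in the same way, with the average of the products of local densities over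
the shifts. The model at the level `(log X)^(1/u)` is summed over the window by the fundamental lemma, and the tails of the
local products are small for almost all discriminants `b² - 4 a c`, uniformly in `a` and `b`.
-/

set_option autoImplicit false

namespace Pool.Agent.Results.MP_a1177c_nt.OptimalScale

open Finset Filter Topology

/-- the triple `(a, b, c)` is admissible -/
def Admissible (a b c : ℤ) : Prop :=
  0 < a ∧ (∀ d : ℤ, d ∣ a → d ∣ b → d ∣ c → IsUnit d) ∧ ¬ ((2 : ℤ) ∣ a + b ∧ (2 : ℤ) ∣ c) ∧
    ¬ IsSquare (b ^ 2 - 4 * a * c)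

/-- `ε = 2` if `a + b` is even and `ε = 1` if `a + b` is odd -/
noncomputable def eps (a b : ℤ) : ℝ := if (2 : ℤ) ∣ a + b then 2 else 1

/-- the product `∏_{p > 2, p ∣ gcd(a, b)} p / (p - 1)` -/
noncomputable def gcdProd (a b : ℤ) : ℝ :=
  ∏ p ∈ (Int.gcd a b).primeFactors.filter (fun p => 2 < p), (p : ℝ) / (p - 1)

/-- the product `∏_{2 < p ≤ z, p ∤ a} (1 - (D / p) / (p - 1))`, where `D = b² - 4 a c` -/
noncomputable def partialC (a b c : ℤ) (z : ℕ) : ℝ :=
  ∏ p ∈ (Icc 3 z).filter (fun p : ℕ => p.Prime ∧ ¬ (p : ℤ) ∣ a),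
    (1 - (jacobiSym (b ^ 2 - 4 * a * c) p : ℝ) / (p - 1))

/-- the value `a n² + b n + c` -/
def val (a b c : ℤ) (n : ℕ) : ℤ := a * (n : ℤ) ^ 2 + b * n + c

/-- the number of the `u < n ≤ v` for which `s (a n² + b n + c)` is a (positive) prime -/
def primeCount (s a b c : ℤ) (u v : ℕ) : ℕ :=
  #((Ioc u v).filter (fun n : ℕ => (s * val a b c n).toNat.Prime))

/-- the sum of `1 / log (s (a n² + b n + c))` over the `u < n ≤ v` with `s (a n² + b n + c) ≥ 2` -/
noncomputable def logSum (s a b c : ℤ) (u v : ℕ) : ℝ :=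
  ∑ n ∈ (Ioc u v).filter (fun n : ℕ => 2 ≤ s * val a b c n), 1 / Real.log (s * val a b c n)

/-- **The formula of Hardy and Littlewood for quadratic polynomials at the optimal scale.**
Let `A ≥ 0` and `ε > 0`. There are `T > 0`, `B` and `X₀` such that the following holds for `X ≥ X₀`, for all integers
`a, b` with `1 ≤ a ≤ A` and `|b| ≤ A √X`, and for all `m₀, M, H` with `X^(1/3) (log X)^B ≤ M`, `T log X ≤ H` and
`m₀ + M + H ≤ A √X`. For all but at most `ε X M` of the pairs `(c, m)` with `|c| ≤ X` and `m₀ ≤ m < m₀ + M`: if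
`(a, b, c)` is admissible, then the product `C(a, b, c)` converges to a number `S > 0` and, with
`K = ε(a, b) S ∏_{p > 2, p ∣ gcd(a, b)} p / (p - 1)`, for `s = 1` and for `s = -1` the number of the `m < n ≤ m + H` with
`s (a n² + b n + c)` prime differs from `K ∑ 1 / log (s (a n² + b n + c))` (over the `m < n ≤ m + H` with
`s (a n² + b n + c) ≥ 2`) by at most `ε K H / log X`. -/
theorem result (A : ℕ) (ε : ℝ) (hε : 0 < ε) : ∃ T : ℝ, 0 < T ∧ ∃ B X₀ : ℕ, ∀ X : ℕ, X₀ ≤ X → ∀ a b : ℤ, 1 ≤ a → (a : ℝ) ≤ A →
    |(b : ℝ)| ≤ A * √X → ∀ m₀ M H : ℕ, (X : ℝ) ^ (1 / 3 : ℝ) * Real.log X ^ B ≤ M → T * Real.log X ≤ H →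
    (m₀ : ℝ) + M + H ≤ A * √X →
    ∃ Bad ⊆ Icc (-(X : ℤ)) X ×ˢ Ico m₀ (m₀ + M), (#Bad : ℝ) ≤ ε * (X * M) ∧
      ∀ c ∈ Icc (-(X : ℤ)) X, ∀ m ∈ Ico m₀ (m₀ + M), (c, m) ∉ Bad → Admissible a b c →
        ∃ S : ℝ, 0 < S ∧ Tendsto (fun z => partialC a b c z) atTop (𝓝 S) ∧ ∀ s : ℤ, (s = 1 ∨ s = -1) →
          |(primeCount s a b c m (m + H) : ℝ) - eps a b * S * gcdProd a b * logSum s a b c m (m + H)| ≤
            ε * (eps a b * S * gcdProd a b * (H / Real.log X)) := by
  obtain ⟨T, hT, B, X₀, h⟩ := Run7.h373.QE.quad A ε hε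
  refine ⟨T, hT, B, X₀, fun X hX a b ha1 ha2 hb m₀ M H h1 h2 h3 => ?_⟩
  obtain ⟨Bad, k1, k2, k3⟩ := h X hX a b ha1 ha2 hb m₀ M H h1 h2 h3
  refine ⟨Bad, k1, k2, fun c hc m hm hcB hadm => ?_⟩
  obtain ⟨S, m1, m2, m3⟩ := k3 c hc m hm hcB hadm
  refine ⟨S, m1, m2, fun s hs => ?_⟩
  have h3 := m3 s hs
  have e1 : Run7.h373.QW.lS s a b c m (m + H) = logSum s a b c m (m + H) := by
    unfold Run7.h373.QW.lS logSum
    refine sum_congr rfl fun n hn => ?_
    rw [mem_filter] at hn
    have h4 : 2 ≤ s * Run7.h373.QW.qv a b c n := hn.2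
    unfold Pool.Agent.TH892.SW.wt
    have e2 : (((s * Run7.h373.QW.qv a b c n).toNat : ℕ) : ℝ) = (s : ℝ) * (val a b c n : ℤ) := by
      have h5 : (((s * Run7.h373.QW.qv a b c n).toNat : ℕ) : ℤ) = s * Run7.h373.QW.qv a b c n :=
        Int.toNat_of_nonneg (by omega)
      have h6 : ((((s * Run7.h373.QW.qv a b c n).toNat : ℕ) : ℤ) : ℝ) = ((s * Run7.h373.QW.qv a b c n : ℤ) : ℝ) := by
        rw [h5]
      rw [Int.cast_natCast] at h6
      rw [h6]
      push_cast
      rfl
    rw [e2]
  rw [e1] at h3
  exact h3

end Pool.Agent.Results.MP_a1177c_nt.OptimalScale
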