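import Pool.Agent.Run7.h385.PQ.Quad

/-!
Poissonian pair correlation of the prime values of 100 percent of the quadratic polynomials.

For `q = (a, b, c)` in a box of size `X` put `f(t) = a t² + b t + c`, and let `S(n)` be the number of the `t`
in the window `(n, n + lam log(X (n+1)²) / C_w(f)]` with `|f(t)|` prime: the formula of Hardy and
Littlewood predicts `lam` of them.  For all `n ≤ N`, `N^10 (log X)^B ≤ X` (arguments up to a power of the
height): quenched, for almost every `f` the numbers `S(n)`, `m < n ≤ m + M`, have the first two factorial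
moments `lam`, `lam²` of a Poisson variable; annealed, at every single `n`, the first five moments over `f`
are those of a Poisson variable.

Method.  (1) The supremum over all frequencies of the exponential sum over primes minus its sieve
model is small in almost all intervals of length `K^(2/3) (log K)^B`.  (2) Five values of a quadratic
polynomial with three free coefficients are linear forms of complexity one: shift the coefficients
along `(x - n_1)(x - n_2)` and `(x - n_3)(x - n_4)`; so primes may be replaced by the model.  (3) The model by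
a pure sieve, in classes modulo the product of the primes up to `log log X / 4`; moments as sums over
tuples, jointly for two windows; variance; Christoffel function; Cauchy-Schwarz.
-/

set_option autoImplicit false

namespace Pool.Agent.Results.MP_a1177c_nt.PoissonPairCorrelation

open Finset

/-- the value at `t` of the polynomial `a x² + b x + c`, `q = (a, b, c)` -/
def val (q : ℤ × ℤ × ℤ) (t : ℕ) : ℤ := q.1 * (t : ℤ) ^ 2 + q.2.1 * t + q.2.2

/-- the number of the residues `t` modulo `p` at which `a x² + b x + c` is divisible by `p` -/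
def omega (q : ℤ × ℤ × ℤ) (p : ℕ) : ℕ := #((range p).filter (fun t : ℕ => (p : ℤ) ∣ val q t))

/-- the constant of Hardy and Littlewood, the product `∏ (1 - omega(p)/p) / (1 - 1/p)` taken over the
primes `p ≤ w` -/
noncomputable def const (q : ℤ × ℤ × ℤ) (w : ℕ) : ℝ :=
  ∏ p ∈ (range (w + 1)).filter Nat.Prime, (1 - (omega q p : ℝ) / p) / (1 - 1 / (p : ℝ))

/-- `w(X) = ⌊log log X / 4⌋` -/
noncomputable def w (X : ℕ) : ℕ := ⌊Real.log (Real.log X) / 4⌋₊

/-- the length `⌈lam log (X (n+1)²) / const⌉` of the window at `n` -/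
noncomputable def len (X : ℕ) (lam : ℝ) (q : ℤ × ℤ × ℤ) (n : ℕ) : ℕ :=
  ⌈lam * Real.log (X * ((n : ℝ) + 1) ^ 2) / const q (w X)⌉₊

/-- the number of the `t` in the window `(n, n + len]` such that `|a t² + b t + c|` is prime -/
noncomputable def S (X : ℕ) (lam : ℝ) (q : ℤ × ℤ × ℤ) (n : ℕ) : ℕ :=
  #((Ioc n (n + len X lam q n)).filter (fun t : ℕ => (val q t).natAbs.Prime))

/-- the box of the triples with `A_i ≤ q_i < A_i + Y_i` -/
noncomputable def box (A : ℤ × ℤ × ℤ) (Y : ℕ × ℕ × ℕ) : Finset (ℤ × ℤ × ℤ) :=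
  Ico A.1 (A.1 + Y.1) ×ˢ Ico A.2.1 (A.2.1 + Y.2.1) ×ˢ Ico A.2.2 (A.2.2 + Y.2.2)

/-- the triples in the box for which no prime `p ≤ w(X)` divides all values -/
noncomputable def adm (X : ℕ) (A : ℤ × ℤ × ℤ) (Y : ℕ × ℕ × ℕ) : Finset (ℤ × ℤ × ℤ) :=
  (box A Y).filter (fun q => 0 < const q (w X))

/-- the box has its corner in `[-X, X]³` and its sides in `[X / (log X)^C, X]` -/
def Sizes (C X : ℕ) (A : ℤ × ℤ × ℤ) (Y : ℕ × ℕ × ℕ) : Prop :=
  (|(A.1 : ℝ)| ≤ X ∧ |(A.2.1 : ℝ)| ≤ X ∧ |(A.2.2 : ℝ)| ≤ X) ∧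
  ((X : ℝ) / Real.log X ^ C ≤ Y.1 ∧ (X : ℝ) / Real.log X ^ C ≤ Y.2.1 ∧ (X : ℝ) / Real.log X ^ C ≤ Y.2.2) ∧
  ((Y.1 : ℝ) ≤ X ∧ (Y.2.1 : ℝ) ≤ X ∧ (Y.2.2 : ℝ) ≤ X)

/-- on the finite set `s`, the variable `T` has, up to `ε`, the factorial moments of orders up to `K` of
a Poisson variable of parameter `lam`; its probabilities differ from those of the Poisson distribution
by at most `lam^K / (j! (K-j)!) + ε`; and it vanishes with probability at most
`1 / (1 + lam + … + lam^k / k!) + ε`, `k = ⌊K / 2⌋` -/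
def Poissonian {ι : Type} (K : ℕ) (lam ε : ℝ) (s : Finset ι) (T : ι → ℕ) : Prop :=
  (∀ k ≤ K, |∑ i ∈ s, (((T i).descFactorial k : ℕ) : ℝ) - lam ^ k * #s| ≤ ε * #s) ∧
  (∀ j ≤ K, |(#(s.filter (fun i => T i = j)) : ℝ) - Real.exp (-lam) * lam ^ j / j.factorial * #s| ≤
    (lam ^ K / (j.factorial * (K - j).factorial) + ε) * #s) ∧
  (#(s.filter (fun i => T i = 0)) : ℝ) ≤ (1 / (∑ i ∈ range (K / 2 + 1), lam ^ i / (i.factorial : ℝ)) + ε) * #s

/-- Poisson statistics of prime values of quadratic polynomials.  For all `C` there is `B` such that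
for all `lam, ε > 0` there is `c0 > 0` such that for all large `X`, all `N` with `N^10 (log X)^B ≤ X` and
all boxes as in `Sizes`:

(i) for all `m`, `M` with `(log X)^4 ≤ M`, `m + M + (log X)^6 ≤ N`, and all admissible `(a, b, c)` but at most
`ε` of them, the numbers `S(n)`, `m < n ≤ m + M`, have Poissonian statistics of order two (mean `lam`,
second factorial moment `lam²`, at most `1 / (1 + lam) + ε` of the windows without prime values), and at
least `c0 M` of the windows contain at least two prime values;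

(ii) for all `n` with `n + (log X)^6 ≤ N`, the number `S(n)` has Poissonian statistics of order five over the
admissible `(a, b, c)`.

The admissible triples are a positive proportion of each box. -/
theorem result (C : ℕ) :
    (∃ B : ℕ, ∀ lam ε : ℝ, 0 < lam → 0 < ε → ∃ c0 : ℝ, 0 < c0 ∧ ∃ X0 : ℕ, ∀ X : ℕ, X0 ≤ X → ∀ N : ℕ,
      (N : ℝ) ^ 10 * Real.log X ^ B ≤ X → ∀ (A : ℤ × ℤ × ℤ) (Y : ℕ × ℕ × ℕ), Sizes C X A Y →
      (∀ m M : ℕ, Real.log X ^ 4 ≤ M → (m : ℝ) + M + Real.log X ^ 6 ≤ N →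
        ∃ bad : Finset (ℤ × ℤ × ℤ), bad ⊆ adm X A Y ∧ (bad.card : ℝ) ≤ ε * #(adm X A Y) ∧
          ∀ q ∈ adm X A Y, q ∉ bad → Poissonian 2 lam ε (Ioc m (m + M)) (fun n => S X lam q n) ∧
            c0 * M ≤ #((Ioc m (m + M)).filter (fun n => 2 ≤ S X lam q n))) ∧
      (∀ n : ℕ, (n : ℝ) + Real.log X ^ 6 ≤ N → Poissonian 5 lam ε (adm X A Y) (fun q => S X lam q n))) ∧
    (∃ c1 : ℝ, 0 < c1 ∧ ∃ X0 : ℕ, ∀ X : ℕ, X0 ≤ X → ∀ (A : ℤ × ℤ × ℤ) (Y : ℕ × ℕ × ℕ), Sizes C X A Y →
      c1 * #(box A Y) ≤ #(adm X A Y)) := by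
  constructor
  · obtain ⟨B, h⟩ := Run7.h385.PQ.Quad.main C
    refine ⟨B, fun lam ε hlam hε => ?_⟩
    obtain ⟨c0, hc0, X0, h1⟩ := h lam ε hlam hε
    refine ⟨c0, hc0, X0, fun X hX N hN A Y hS => ?_⟩
    exact h1 X hX N hN A Y hS.1 hS.2.1 hS.2.2
  · obtain ⟨c1, hc1, X0, h⟩ := Run7.h385.PQ.Quad.main_adm C
    exact ⟨c1, hc1, X0, fun X hX A Y hS => h X hX A Y hS.2.1⟩

end Pool.Agent.Results.MP_a1177c_nt.PoissonPairCorrelation
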