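import Mathlib
import Pool.Agent.Run7.h545.HP.Fin

/-!
# The Hardy-Littlewood number of primes for a positive proportion of the quadratic polynomials of height `H`,
# for lengths up to `H^(4-ε)`

The coefficient `a > 0` is fixed. For every `η > 0` there is `κ > 0` such that for every `ε > 0`, `H ≥ H0` and
`H^(7/3) ≤ N ≤ H^(4-ε)` at least `κ H²` of the pairs `|b|, |c| ≤ H` are admissible and have, among the `m ≤ N`, at least
`1 - η` times the number of primes `a m² + b m + c` which the formula of Hardy and Littlewood predicts, with the full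
constant. There are `4 H²` polynomials and their values may be as large as `H^(8 - 2ε)`: below this length a family of
about `H²` polynomials has values in all intervals of length `√X`, which is the limit of the method.

Proof. The pairs `b = 2 a k`, `0 ≤ k < t`, `t = ⌊H / (2a)⌋ - 1`, `c = c' + a k² - a t²` are, after the shift `n = m + k - t`,
the family `a n² + 2 a t n + c'`, `1 ≤ c' ≤ C = a t²`, where `(2at)² = 4 a C`. First moment: a prime `v` is a value of the
family if the fractional part of the root `y` of `a y² + 2 a t y = v` is in `(0, κ_v)`; this is a sum of triangle functions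
of `√(v / a)` and is estimated by exponential sums over primes (Vaughan's identity, a double large sieve), so the average of
the number of primes over `c' ≤ C` is at least `(1 - η') N / (2 log N)` for `C ≥ N^(1/2 + ε)`. Upper bound sieve, the mean
value and the mean square of the truncated singular series, uniformly in `b`, then give the positive proportion.
The pieces UP, SQ, AV are due to helper973, TRI to helper994, TII, TI, BIL to helper462, VAU and the idea to helper757.
-/

set_option autoImplicit false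

namespace Pool.Agent.Results.MP_a1177c_nt.ProportionToFourthPower

open Finset Filter Topology

/-- the triple `(a, b, c)` is admissible -/
def Admissible (a b c : ℤ) : Prop :=
  0 < a ∧ (∀ d : ℤ, d ∣ a → d ∣ b → d ∣ c → IsUnit d) ∧ ¬ ((2 : ℤ) ∣ a + b ∧ (2 : ℤ) ∣ c) ∧
    ¬ IsSquare (b ^ 2 - 4 * a * c)

/-- the number of `m ≤ N`, `m ≥ 1`, for which `a m² + b m + c` is a (positive) prime -/
def primeCount (a b c : ℤ) (N : ℕ) : ℕ :=
  #((Ioc 0 N).filter (fun m : ℕ => (a * (m : ℤ) ^ 2 + b * m + c).toNat.Prime))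

/-- `ε = 2` if `a + b` is even and `ε = 1` if `a + b` is odd -/
noncomputable def eps (a b : ℤ) : ℝ := if (2 : ℤ) ∣ a + b then 2 else 1

/-- the product `∏_{p > 2, p ∣ gcd(a, b)} p / (p - 1)` -/
noncomputable def gcdProd (a b : ℤ) : ℝ :=
  ∏ p ∈ (Int.gcd a b).primeFactors.filter (fun p => 2 < p), (p : ℝ) / (p - 1)

/-- the product `∏_{2 < p ≤ z, p ∤ a} (1 - (D / p) / (p - 1))`, where `D = b² - 4 a c` -/
noncomputable def partialC (a b c : ℤ) (z : ℕ) : ℝ :=
  ∏ p ∈ (Icc 3 z).filter (fun p : ℕ => p.Prime ∧ ¬ (p : ℤ) ∣ a),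
    (1 - (jacobiSym (b ^ 2 - 4 * a * c) p : ℝ) / (p - 1))

/-- the sum of `1 / log |a m² + b m + c|` over the `1 ≤ m ≤ N` with `|a m² + b m + c| ≥ 2` -/
noncomputable def logSum (a b c : ℤ) (N : ℕ) : ℝ :=
  ∑ m ∈ (Ioc 0 N).filter (fun m : ℕ => 2 ≤ |a * (m : ℤ) ^ 2 + b * m + c|),
    1 / Real.log |(a : ℝ) * m ^ 2 + b * m + c|

/-- the pair `q = (b, c)` is admissible, `C(a, b, c)` converges to a number `S > 0`, and the number of the primes
`a m² + b m + c`, `m ≤ N`, is at least `1 - η` times the value in the formula of Hardy and Littlewood -/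
def Good (a : ℤ) (η : ℝ) (N : ℕ) (q : ℤ × ℤ) : Prop :=
  Admissible a q.1 q.2 ∧ ∃ S : ℝ, 0 < S ∧ Tendsto (fun z => partialC a q.1 q.2 z) atTop (𝓝 S) ∧
    (1 - η) * (eps a q.1 * S * gcdProd a q.1 * logSum a q.1 q.2 N) ≤ primeCount a q.1 q.2 N

open Classical in
/-- **The predicted number of primes for a positive proportion of the quadratic polynomials of height `H`,
`N ≤ H^(4-ε)`.** Let `a > 0` and `η > 0`. There is `κ > 0` such that for every `ε > 0` there is `H0` with: for all `H ≥ H0`
and all `N` with `H^(7/3) ≤ N ≤ H^(4 - ε)` at least `κ H²` of the pairs `(b, c)` of integers with `|b|, |c| ≤ H` are good. -/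
theorem result (a : ℤ) (ha : 0 < a) (η : ℝ) (hη : 0 < η) :
    ∃ κ : ℝ, 0 < κ ∧ ∀ ε : ℝ, 0 < ε → ∃ H0 : ℕ, ∀ H : ℕ, H0 ≤ H → ∀ N : ℕ, (H : ℝ) ^ (7 / 3 : ℝ) ≤ N →
      (N : ℝ) ≤ (H : ℝ) ^ (4 - ε) →
      κ * (H : ℝ) ^ 2 ≤ (#((Icc (-(H : ℤ)) H ×ˢ Icc (-(H : ℤ)) H).filter (fun q => Good a η N q)) : ℝ) :=
  Run7.h545.HP.pairs a ha η hη

end Pool.Agent.Results.MP_a1177c_nt.ProportionToFourthPower
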