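import Mathlib
import Pool.Agent.Run7.h373.QW.Fin

/-!
# The Hardy-Littlewood formula in windows of length `X^(1/6)`, for almost all constant terms

Let `f(n) = a n² + b n + c`. For EVERY pair `(a, b)` with `1 ≤ a ≤ (log X)^C` and `|b| ≤ √X (log X)^C`, and for every
window `(m, m + H]` below `√X (log X)^C` whose length is only `H ≥ X^(1/6) (log X)^B`, the number of the primes
`f(n)` and the number of the primes `-f(n)` with `n` in the window are given by the formula of Hardy and
Littlewood, with the full constant `ε C(a, b, c) ∏ p / (p - 1)` and a relative error `(log X)^(-U)`, for all but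
`X / (log X)^U` of the constant terms `|c| ≤ X`. In the earlier results on averages over the constant term the
argument runs through all `n ≤ √X` (or through an interval of nearly this length), or `f(n) = n² + c`.

Proof. The second moment over `c` of the sum over the window of the difference between the primes and their
sieve model is at most an integral over the circle of `|F|² |W|²`, where `F` is the exponential sum of that difference up to
`X (log X)^(3 C)`, and `W` the sum of `e(α (a n² + b n))` over the window. On the minor arcs `W` is estimated by Weyl's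
inequality, uniformly in `b`. On the major arcs, of width `(log X)^B / H²`, Gallagher's lemma leads to the primes
minus their model, twisted by `e(a n / q)`, in almost all intervals of length `H² / (log X)^B ≥ X^(1/3)`; these are estimated
by Heath-Brown's identity, mean values of Dirichlet polynomials twisted by characters, and a zero-free region. The
model is summed by the fundamental lemma of the sieve. The tails of the infinite products
are small for almost all discriminants `b² - 4 a c`, uniformly in `a` and `b`: after completing the square, all of them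
are among the numbers `4 k` and `4 k + 1`, and the large sieve for real characters and the theorem of Siegel and Walfisz
apply to these two families.
-/

set_option autoImplicit false

namespace Pool.Agent.Results.MP_a1177c_nt.WindowsOneSixth

open Finset Filter Topology

/-- the triple `(a, b, c)` is admissible -/
def Admissible (a b c : ℤ) : Prop :=
  0 < a ∧ (∀ d : ℤ, d ∣ a → d ∣ b → d ∣ c → IsUnit d) ∧ ¬ ((2 : ℤ) ∣ a + b ∧ (2 : ℤ) ∣ c) ∧
    ¬ IsSquare (b ^ 2 - 4 * a * c)

/-- `ε = 2` if `a + b` is even and `ε = 1` if `a + b` is odd -/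
noncomputable def eps (a b : ℤ) : ℝ := if (2 : ℤ) ∣ a + b then 2 else 1

/-- the product `∏_{p > 2, p ∣ gcd(a, b)} p / (p - 1)` -/
noncomputable def gcdProd (a b : ℤ) : ℝ :=
  ∏ p ∈ (Int.gcd a b).primeFactors.filter (fun p => 2 < p), (p : ℝ) / (p - 1)

/-- the product `∏_{2 < p ≤ z, p ∤ a} (1 - (D / p) / (p - 1))`, where `D = b² - 4 a c` -/
noncomputable def partialC (a b c : ℤ) (z : ℕ) : ℝ :=
  ∏ p ∈ (Icc 3 z).filter (fun p : ℕ => p.Prime ∧ ¬ (p : ℤ) ∣ a),
    (1 - (jacobiSym (b ^ 2 - 4 * a * c) p : ℝ) / (p - 1))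

/-- the value `a n² + b n + c` -/
def val (a b c : ℤ) (n : ℕ) : ℤ := a * (n : ℤ) ^ 2 + b * n + c

/-- the number of the `u < n ≤ v` for which `s (a n² + b n + c)` is a (positive) prime -/
def primeCount (s a b c : ℤ) (u v : ℕ) : ℕ :=
  #((Ioc u v).filter (fun n : ℕ => (s * val a b c n).toNat.Prime))

/-- the sum of `1 / log (s (a n² + b n + c))` over the `u < n ≤ v` with `s (a n² + b n + c) ≥ 2` -/
noncomputable def logSum (s a b c : ℤ) (u v : ℕ) : ℝ :=
  ∑ n ∈ (Ioc u v).filter (fun n : ℕ => 2 ≤ s * val a b c n), 1 / Real.log (s * val a b c n)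

/-- **The formula of Hardy and Littlewood in windows of length `X^(1/6) (log X)^B`, for almost all constant terms.**
Let `U, C ≥ 0`. There are `B` and `X₀` such that the following holds for `X ≥ X₀`, for all integers `a, b` with
`1 ≤ a ≤ (log X)^C` and `|b| ≤ √X (log X)^C`, and for all `m, H` with `X^(1/6) (log X)^B ≤ H` and
`m + H ≤ √X (log X)^C`. For all but at most `X / (log X)^U` of the integers `|c| ≤ X`: if `(a, b, c)` is admissible, then
the product `C(a, b, c)` converges to a number `S > 0` and, with `M = ε S ∏_{p > 2, p ∣ gcd(a, b)} p / (p - 1)`, for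
`s = 1` and for `s = -1` the number of the `m < n ≤ m + H` with `s (a n² + b n + c)` prime differs from
`M ∑ 1 / log (s (a n² + b n + c))` (over the `m < n ≤ m + H` with `s (a n² + b n + c) ≥ 2`) by at most
`M H / (log X)^U`. -/
theorem result (U C : ℕ) : ∃ B X₀ : ℕ, ∀ X : ℕ, X₀ ≤ X → ∀ a b : ℤ, 1 ≤ a → (a : ℝ) ≤ Real.log X ^ C →
    |(b : ℝ)| ≤ √X * Real.log X ^ C → ∀ m H : ℕ, (X : ℝ) ^ (1 / 6 : ℝ) * Real.log X ^ B ≤ H →
    (m : ℝ) + H ≤ √X * Real.log X ^ C →
    ∃ Bad ⊆ Icc (-(X : ℤ)) X, (#Bad : ℝ) ≤ X / Real.log X ^ U ∧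
      ∀ c ∈ Icc (-(X : ℤ)) X, c ∉ Bad → Admissible a b c →
        ∃ S : ℝ, 0 < S ∧ Tendsto (fun z => partialC a b c z) atTop (𝓝 S) ∧
          ∀ s : ℤ, (s = 1 ∨ s = -1) →
            |(primeCount s a b c m (m + H) : ℝ) - eps a b * S * gcdProd a b * logSum s a b c m (m + H)| ≤
              eps a b * S * gcdProd a b * H / Real.log X ^ U := by
  obtain ⟨B, X₀, h⟩ := Run7.h373.QW.final U C
  refine ⟨B, X₀, fun X hX a b ha1 ha2 hb m H h1 h2 => ?_⟩
  obtain ⟨Bad, k1, k2, k3⟩ := h X hX a b ha1 ha2 hb m H h1 h2
  refine ⟨Bad, k1, k2, fun c hc hcB hadm => ?_⟩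
  obtain ⟨S, m1, m2, m3⟩ := k3 c hc hcB hadm
  refine ⟨S, m1, m2, fun s hs => ?_⟩
  have h3 := m3 s hs
  have e1 : Run7.h373.QW.lS s a b c m (m + H) = logSum s a b c m (m + H) := by
    unfold Run7.h373.QW.lS logSum
    refine sum_congr rfl fun n hn => ?_
    rw [mem_filter] at hn
    have h4 : 2 ≤ s * Run7.h373.QW.qv a b c n := hn.2
    unfold Pool.Agent.TH892.SW.wt
    have e2 : (((s * Run7.h373.QW.qv a b c n).toNat : ℕ) : ℝ) = (s : ℝ) * (val a b c n : ℤ) := by
      have h5 : (((s * Run7.h373.QW.qv a b c n).toNat : ℕ) : ℤ) = s * Run7.h373.QW.qv a b c n :=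
        Int.toNat_of_nonneg (by omega)
      have h6 : ((((s * Run7.h373.QW.qv a b c n).toNat : ℕ) : ℤ) : ℝ) = ((s * Run7.h373.QW.qv a b c n : ℤ) : ℝ) := by
        rw [h5]
      rw [Int.cast_natCast] at h6
      rw [h6]
      push_cast
      rfl
    rw [e2]
  rw [e1] at h3
  exact h3

end Pool.Agent.Results.MP_a1177c_nt.WindowsOneSixth
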